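import Pool.Agent.Y164.TP.Ex

/-!
# Tate classes on fibre products of quadratic twists of elliptic surfaces

Let `k` be a finite field with `q` elements, of characteristic at least `5`, and `K` the function
field of a curve `C` over `k`. For elliptic curves `E_i : y ^ 2 = x ^ 3 + a_i x + b_i` over `K`,
`i < r`, and non-zero `u_i` in `K` let `F_i : y ^ 2 = x ^ 3 + u_i ^ 2 a_i x + u_i ^ 3 b_i` be the
quadratic twists. If all `F_i` have good reduction outside a finite set `T` of places then

`L(X) = ∏_{v ∉ T} det(1 - Frob_v X ^ deg v | V)⁻¹`, `V = H¹(F_1) ⊗ ... ⊗ H¹(F_r)`,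

is a rational function, and if there are no geometric invariants (for instance if `r` is odd and no
`j`-invariant is constant) it is the polynomial `det(1 - Frob X | H¹_c(C - T, V))` (Grothendieck). A
zero at `1 / q ^ m` is a Tate class in this part of the cohomology of the fibre product of the `F_i`
over `C - T`, and a zero at `β / q ^ m`, `β` an eigenvalue of the Frobenius on `H ^ b(Y)`, is a Tate
class on the product with the variety `Y` over `k`; the `β` are the roots of a monic polynomial `Q`.
The results say that there are no such classes, in any codimension. By duality the part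
`H¹(C - T, V) ⊗ H ^ b(Y)` of the cohomology of the open fibre product (times `Y`) has no invariants in
any twist, and neither has its image in the cohomology of the generic point.
-/

set_option autoImplicit false
set_option linter.all false

open Polynomial Pool.Agent.W343.BSD Pool.Agent.W313.Gr

namespace Pool.Agent.Results.MP_677d84_ag.FibreProducts

section defs

variable {k K : Type} [Field k] [Field K] [Algebra k K]

/-- A matrix with trace `a_v` and determinant `q_v`, where `a_v` is the trace of the Frobenius at the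
place `v` of `y ^ 2 = x ^ 3 + a x + b` and `q_v` the number of elements of the residue field: at a
place of good reduction the Frobenius on the first cohomology has the same eigenvalues. -/
noncomputable def frob (v : FF.Place k K) (a b : K) : Matrix (Fin 2) (Fin 2) ℤ :=
  !![0, -(Nat.card (S.Res v) : ℤ); 1, S.trace v a b]

/-- The tensor product of the matrices `frob v (a i) (b i)`. -/
noncomputable def tensorFrob (v : FF.Place k K) {r : ℕ} (a b : Fin r → K) :
    Matrix (Fin r → Fin 2) (Fin r → Fin 2) ℤ :=
  Matrix.of fun x y => ∏ i, frob v (a i) (b i) (x i) (y i)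

/-- The Euler factor `det(1 - A X ^ deg v)`, where `A` is the tensor product above. -/
noncomputable def tensorFactor (v : FF.Place k K) {r : ℕ} (a b : Fin r → K) : ℤ[X] :=
  (tensorFrob v a b).charpolyRev.comp (X ^ S.deg v)

open Classical in
/-- The Euler product of the inverses of the factors above over the places outside `T`. -/
noncomputable def tensorL (T : Finset (FF.Place k K)) {r : ℕ} (a b : Fin r → K) : PowerSeries ℤ :=
  eulerProd (fun v : FF.Place k K => S.deg v)
    (fun v => if v ∈ T then 1 else PowerSeries.invOfUnit (tensorFactor v a b : PowerSeries ℤ) 1)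

open Classical in
/-- The quadratic character of `K(√u)` at `v`: it is `0` if the valuation of `u` is odd, and otherwise
`1` or `-1` as `u` is or is not a square in the completion at `v`. -/
noncomputable def localChar (v : FF.Place k K) (u : K) : ℤ :=
  if Odd (v.ord u) then 0
  else if ∃ s : K, u = s ^ 2 ∨ v.ord u < v.ord (u - s ^ 2) then 1 else -1

open Classical in
/-- The product of `1 - localChar v u X ^ deg v` over the places `v` outside `T`. -/
noncomputable def charProd (T : Finset (FF.Place k K)) (u : K) : PowerSeries ℤ :=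
  eulerProd (fun v : FF.Place k K => S.deg v)
    (fun v => if v ∈ T then 1 else 1 - PowerSeries.C (localChar v u) * PowerSeries.X ^ S.deg v)

/-- The curves `y ^ 2 = x ^ 3 + a_i x + b_i` are elliptic curves, `l` divides the number of points of
the reduction of each of them at each place of good reduction, `u_i ≠ 0`, and at the places outside
`T` all the curves have good reduction and all `u_i` have even valuation. -/
structure Setting (l : ℕ) (T : Finset (FF.Place k K)) {r : ℕ} (a b u : Fin r → K) : Prop where
  disc : ∀ i, 4 * a i ^ 3 + 27 * b i ^ 2 ≠ 0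
  points : ∀ i, PointsDvd l k (a i) (b i)
  ne : ∀ i, u i ≠ 0
  good : ∀ v, v ∉ T → ∀ i, v.ord (minDisc v (a i) (b i)) = 0 ∧ Even (v.ord (u i))

/-- The polynomials `Q(X)` and `W(q ^ s X)` are coprime modulo `l`, for all `s ≥ 0`. -/
def CoprimeMod (l q : ℕ) (Q W : ℤ[X]) : Prop :=
  ∀ s : ℕ, IsCoprime (Q.map (Int.castRingHom (ZMod l)))
    ((W.comp (C ((q : ℤ) ^ s) * X)).map (Int.castRingHom (ZMod l)))

/-- If `D L = G` with `D`, `G` in `ℤ[X]` and `D` is `1`, or `CoprimeMod` with `Q`, where `L` is the
Euler product `tensorL` of the twists of the curves `y ^ 2 = x ^ 3 + a_i x + b_i` by the `u_i`, then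
`G(β / |k| ^ m) ≠ 0` for all complex roots `β` of `Q` and all `m ≥ 0`. -/
def NoZeros (l : ℕ) (T : Finset (FF.Place k K)) {r : ℕ} (a b u : Fin r → K) (Q : ℤ[X]) : Prop :=
  ∀ D G : ℤ[X], (D : PowerSeries ℤ) *
    tensorL T (fun i => u i ^ 2 * a i) (fun i => u i ^ 3 * b i) = (G : PowerSeries ℤ) →
    (D = 1 ∨ CoprimeMod l (Nat.card k) Q D) → ∀ (m : ℕ) (β : ℂ), aeval β Q = 0 →
      aeval (β / (Nat.card k : ℂ) ^ m) G ≠ 0

/-- The coefficient `a` of the short form of `y ^ 2 = x ^ 3 + (x + t ^ (3 ^ j)) ^ 2` over `k(t)`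
(replace `x` by `x - 1 / 3`). -/
noncomputable def famA (k : Type) [Field k] (j : ℕ) : RatFunc k := 2 * RatFunc.X ^ 3 ^ j - 1 / 3

/-- The coefficient `b` of the same short form. -/
noncomputable def famB (k : Type) [Field k] (j : ℕ) : RatFunc k :=
  (RatFunc.X ^ 3 ^ j) ^ 2 - 2 * RatFunc.X ^ 3 ^ j / 3 + 2 / 27

end defs

/-- Let `k` be a finite field of characteristic at least `5` with `q` elements, `K` a function field
over `k`, `l` a prime not dividing `q`, `E_i`, `u_i`, `T` as in `Setting`, for `i < r`, and `u = ∏ u_i`.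
Let `W`, `E` in `ℤ[X]` be such that the `L`-function `∏_{v ∉ T} (1 - χ_u(v) X ^ deg v)⁻¹` is `W / E`.
If `Q` in `ℤ[X]` is monic and coprime to `W(q ^ s X)` modulo `l` for all `s` then
`G(β / q ^ m) ≠ 0` for the roots `β` of `Q` and all `m`, where `G` is as in `NoZeros`.

In particular let `q` be `1` modulo `3`, `E_j : y ^ 2 = x ^ 3 + (x + t ^ (3 ^ j)) ^ 2` over `k(t)`, and
`j_1, ..., j_r ≥ 0`, and let `δ_1, ..., δ_r` in `k` be such that `∏ δ_i` is not a square. Let `T` be
the set of the places of bad reduction of the twists `F_i` of `E_{j_i}` by `δ_i`. It is finite, and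
`G(β / q ^ m) ≠ 0` for all `m` and all roots `β` of monic polynomials `Q` with `3 ∤ Q(-1)`. -/
theorem result :
    (∀ (k K : Type) [Field k] [Finite k] [Field K] [Algebra k K] [FF.IsFF k K],
      (6 : k) ≠ 0 → ∀ l : ℕ, l.Prime → (l : k) ≠ 0 →
      ∀ (r : ℕ) (a b u : Fin r → K) (T : Finset (FF.Place k K)), Setting l T a b u →
      ∀ W E Q : ℤ[X], (W : PowerSeries ℤ) * charProd T (∏ i, u i) = (E : PowerSeries ℤ) →
      Q.Monic → CoprimeMod l (Nat.card k) Q W → NoZeros l T a b u Q) ∧
    ∀ (k : Type) [Field k] [Finite k], (6 : k) ≠ 0 → 3 ∣ Nat.card k - 1 →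
      ∀ (r : ℕ) (j : Fin r → ℕ) (δ : Fin r → k), ¬ IsSquare (∏ i, δ i) →
      ∃ T : Finset (FF.Place k (RatFunc k)),
        (∀ v, v ∈ T ↔ ∃ i, v.ord (minDisc v (algebraMap k (RatFunc k) (δ i) ^ 2 * famA k (j i))
          (algebraMap k (RatFunc k) (δ i) ^ 3 * famB k (j i))) ≠ 0) ∧
        ∀ Q : ℤ[X], Q.Monic → ¬ 3 ∣ Q.eval (-1) →
          NoZeros 3 T (fun i => famA k (j i)) (fun i => famB k (j i))
            (fun i => algebraMap k (RatFunc k) (δ i)) Q := by
  have hone : ∀ (l q : ℕ) (Q D : ℤ[X]), (D = 1 ∨ CoprimeMod l q Q D) → CoprimeMod l q Q D := by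
    rintro l q Q D (rfl | h)
    · intro s
      rw [one_comp, Polynomial.map_one]
      exact isCoprime_one_right
    · exact h
  refine ⟨?_, ?_⟩
  · intro k K _ _ _ _ _ h6 l hl hlk r a b u T hS W E Q hW hQ hcop D G hG hD
    have : Fact l.Prime := ⟨hl⟩
    exact Y164.TP.main_gen (l := l) h6 hlk hS.disc hS.ne hS.points hS.good hW hG
      (hone _ _ _ _ hD) hQ hcop
  · intro k _ _ h6 hq r j δ hδ
    obtain ⟨T, h1, h2⟩ := Y164.TP.main_fam h6 hq j δ hδ
    exact ⟨T, h1, fun Q hQ hQ3 D G hG hD => h2 D G Q hG hQ hQ3 (hone _ _ _ _ hD)⟩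

end Pool.Agent.Results.MP_677d84_ag.FibreProducts
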