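import Pool.Agent.Y99.NF.Main

/-!
# The Tate conjecture for function fields over finite fields: one bidegree for each difference

Let `k` be a finite field. For a finitely generated field `K = k(V)` over `k` let
`H^i(K, ℚ_ℓ(j)) = H^i(F₀ V, ℚ_ℓ(j))` be the direct limit of the `ℓ`-adic cohomology groups (over the
algebraic closure of `k`) of the open subsets of the variety `V`. The conjecture says that the Frobenius
invariant elements of these groups come from `CH^j(Spec K, 2 j - i) ⊗ ℚ_ℓ`; these groups vanish for
`j < i`.

For each `c ≥ 1` choose one twist `j(c) ≥ c + 1`. The conjecture, for all `K`, `i` and `j`, is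
equivalent to the vanishing of the invariant elements of `H^(j(c) + c)(K, ℚ_ℓ(j(c)))` for all `c ≥ 1` and
all `K`, for example `H^(2r - 1)(K, ℚ_ℓ(r))`, `r ≥ 2`. If `j(c) ≥ c + 2` the rational function fields
`K = k(t_1, …, t_n)` are sufficient, for example with `H^(2r)(K, ℚ_ℓ(r + 1))`, `r ≥ 2`.
-/

set_option autoImplicit false

open CategoryTheory AlgebraicGeometry Pool.Agent.Y116.UV Pool.Agent.Y101.Th Pool.Agent.Y99.NF

namespace Pool.Agent.Results.MP_677d84_ag.OneTwistForEachGap

variable {k Ω : Type} [Field k] [Field Ω]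

/-- (1) The conjecture is equivalent to the conjectures of Tate and Beilinson and semisimplicity for all
smooth projective varieties. (2) It is equivalent to the vanishing of the invariants in one bidegree
`(i, j) = (j(c) + c, j(c))` for each `c ≥ 1`, if `j(c) ≥ c + 1`; (3) for the rational function fields
`k(t_1, …, t_n)` only, if `j(c) ≥ c + 2`. (4) If the conjecture is true for all fields of transcendence
degree at most `d` over `k` then the conjectures of Tate and Beilinson and semisimplicity are true for
all varieties of dimension at most `d`, open or singular ones included. -/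
theorem result [Finite k] (T : Theory k Ω) (hT : IsTheory T) :
    (QOne T ↔ ∀ Y : Sch k, SmProj Y → TBS T Y Set.univ) ∧
    (∀ j : ℤ → ℤ, (∀ c, c + 1 ≤ j c) →
      (QOne T ↔ ∀ c, 1 ≤ c → ∀ K : Fld k, FG K → Van T K (j c + c) (j c))) ∧
    (∀ j : ℤ → ℤ, (∀ c, c + 2 ≤ j c) →
      (QOne T ↔ ∀ c, 1 ≤ c → ∀ n : ℕ, Van T (rat k n) (j c + c) (j c))) ∧
    ∀ d : ℤ, (∀ K : Fld k, FG K → td K ≤ d → ∀ (i j : ℤ) (e : (T.G K i j).E),
        (T.G K i j).frob e = e → e ∈ Set.range (T.G K i j).reg) →
      ∀ X : Sch k, FT True X → ∀ S : Set X.left, IsLocallyClosed S → DimLE S d → TBS T X S :=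
  ⟨q_iff_smproj hT, fun _ hj => q_iff_choice hT hj, fun _ hj => q_iff_rat hT hj,
    fun d h X hX S hS hd => good_of_q_dim hT.toIsBasic d h X hX S hS hd⟩

end Pool.Agent.Results.MP_677d84_ag.OneTwistForEachGap
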