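import Pool.Agent.Y701.GV.Dens

/-!
# Zeta functions of varieties over function fields in Galois extensions of prime power degree over constant extensions

Every projective variety over every function field of one variable over a finite field, for a positive
proportion of the primes.
-/

set_option autoImplicit false
set_option linter.all false
set_option maxHeartbeats 4000000

open Polynomial FF Module Pool.Agent.W343.BSD Pool.Agent.Y701.GV

namespace Pool.Agent.Results.MP_677d84_ag.ProlDensity

/-- The set contains a positive proportion of the primes: there is a constant `c > 0` such that for all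
large `N` at least `c π(N)` of the primes up to `N` are in the set. -/
def PositiveDensity (A : Set ℕ) : Prop :=
  ∃ c : ℝ, 0 < c ∧ ∃ N₀ : ℕ, ∀ N : ℕ, N₀ ≤ N →
    c * Nat.primeCounting N ≤ Set.ncard {p : ℕ | p ≤ N ∧ p.Prime ∧ p ∈ A}

section defs

/-- The forms in `F` over the extension `L` of `K`. -/
def extend {K : Type} [Field K] {n : ℕ} (L : Type) [Field L] [Algebra K L]
    (F : Set (MvPolynomial (Fin (n + 1)) K)) : Set (MvPolynomial (Fin (n + 1)) L) :=
  MvPolynomial.map (algebraMap K L) '' F

/-- The product `Λ(T) = ∏ P_w(T ^ (deg w))⁻¹` over the places `w` of `L` (over the field of constants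
`k`), where `P_w(T) = exp (-∑ a_w(m) T ^ m / m)` and `c(Q) - a_w(m)` is the number of the points of the
fibre `X_w` over the extension of degree `m`, with `Q` elements, of the residue field of `w`. Here
`X_w` is the fibre at `w` of the closure in the projective space of the variety over `L` defined by
the forms in `F`. -/
abbrev IsL (k : Type) {L : Type} [Field k] [Field L] [Algebra k L] {n : ℕ} (c : ℤ[X])
    (F : Set (MvPolynomial (Fin (n + 1)) L)) (Λ : PowerSeries ℤ) : Prop :=
  IsLFunction k c F Λ

/-- `P_w`, as in the definition of `IsL`. -/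
abbrev IsP {k L : Type} [Field k] [Field L] [Algebra k L] {n : ℕ} (c : ℤ[X]) (w : Place k L)
    (F : Set (MvPolynomial (Fin (n + 1)) L)) (P : PowerSeries ℤ) : Prop :=
  IsNumerator c w F P

/-- `P = A / C` with integral polynomials `A` and `C`, `C(0) = 1`. -/
def IsQuot (P : PowerSeries ℤ) (A C : ℤ[X]) : Prop :=
  C.coeff 0 = 1 ∧ P * (C : PowerSeries ℤ) = (A : PowerSeries ℤ)

/-- The multiplicity modulo `ℓ` of the zero `q ^ (-b)` of `A`. -/
noncomputable def mult (ℓ : ℕ) [Fact ℓ.Prime] (q b : ℕ) (A : ℤ[X]) : ℕ :=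
  (A.map (Int.castRingHom (ZMod ℓ))).rootMultiplicity (((q : ℕ) : ZMod ℓ) ^ b)⁻¹

/-- The order of vanishing of `R` at `q ^ (-b)`. -/
noncomputable def order (q b : ℕ) (R : ℤ[X]) : ℕ :=
  (R.map (Int.castRingHom ℚ)).rootMultiplicity ((q : ℚ) ^ b)⁻¹

/-- The place `w` of `L` lies over the place `v` of `K`, with the ramification index `e`. The fields of
constants `k` and `k'` may be different. -/
def LiesOver {k K k' L : Type} [Field k] [Field K] [Algebra k K] [Field k'] [Field L]
    [Algebra k' L] [Algebra K L] (w : Place k' L) (v : Place k K) (e : ℕ) : Prop :=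
  0 < e ∧ ∀ f : K, w.ord (algebraMap K L f) = e * v.ord f

/-- `K'` is the constant extension of `K` with the field of constants `k'`, whose degree divides
`(ℓ - 1) / 2`, and `L` is a Galois extension of `K'` of degree a power of `ℓ`, with the field of
constants `k''`. A place `v'` of `K'` that ramifies in `L` lies over an element of `T`, or
`P_{v'} = A / C` where `A` does not vanish modulo `ℓ` at `q_{v'} ^ (-b)`. -/
structure IsTower {k K : Type} (k' K' k'' L : Type) [Field k] [Field K] [Algebra k K] [Field k']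
    [Field K'] [Algebra k' K'] [Algebra k k'] [Algebra K K'] [Field k''] [Field L]
    [Algebra k'' L] [Algebra K' L] (ℓ : ℕ) [Fact ℓ.Prime] (T : Finset (Place k K)) {n : ℕ}
    (F : Set (MvPolynomial (Fin (n + 1)) K)) (c : ℤ[X]) (b : ℕ) : Prop where
  curve : IsCurveField k' K'
  constants : finrank K K' = finrank k k'
  degree : finrank k k' ∣ (ℓ - 1) / 2
  curveTop : IsCurveField k'' L
  galois : IsGalois K' L
  power : ∃ s : ℕ, finrank K' L = ℓ ^ s
  ramification : ∀ (v' : Place k' K') (w : Place k'' L) (e : ℕ), LiesOver w v' e → e ≠ 1 →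
    (∃ v ∈ T, ∃ e' : ℕ, LiesOver v' v e') ∨
      ∃ (P : PowerSeries ℤ) (A C : ℤ[X]), IsP c v' (extend K' F) P ∧ IsQuot P A C ∧
        mult ℓ (Nat.card (S.Res v')) b A = 0

end defs

/-- Let `K` be the function field of a curve over the field `k` with `q` elements, and `X` the
projective variety over `K` defined by forms in `n + 1` variables; nothing else is assumed. For a
finite extension `L` of `K`, with field of constants `k'`, `q' = |k'|`, let `X_w` be the fibres of the
closure `𝒳_L` of `X_L` in the projective space over the curve of `L`. Let `c(Q) = ∑ c_i Q ^ i` be an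
integral polynomial and `Λ_L(T) = ∏ P_w(T ^ (deg w))⁻¹`, where
`P_w(T) = ∏ (1 - q_w ^ i T) ^ (c_i) Z(X_w, T)`, so that
`Z(𝒳_L, T) = ∏ ζ_L(q' ^ i T) ^ (c_i) / Λ_L(T)`. For a smooth hypersurface or complete intersection of
odd dimension `2 b - 1` and `c(Q) = 1 + Q + ... + Q ^ (2 b - 1)` it is the `L`-function of the middle
cohomology, up to finitely many factors. The order of the pole of `Z(𝒳_L, T)` at `q' ^ (-b)` is
`c_b + c_(b - 1)` plus the order of vanishing of `Λ_L`. So if the latter is `0` and there are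
`c_b + c_(b - 1)` independent classes of cycles on the smooth variety `𝒳_L`, then all Tate classes of
codimension `b` are algebraic, and the invariants in the cohomology `H ^ (2 b) (F_0 𝒳_L, ℚ_l(b))` of
the generic point are `0`.

Let `Λ_K V = (1 - q ^ b T) ^ ρ U`, where `U` has no positive real zero (if the zeros have the
absolute value `q ^ (-b)`, then this says that `ρ` is the order of vanishing), and let `T` be a finite
set of places `v` with `P_v = A_v / C_v`, where `A_v` has no positive real zero. Then there is a set of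
primes `ℓ` of positive density, for which `q` is a square (so the degree of `k(μ_ℓ)` divides
`(ℓ - 1) / 2`), with the following property. Let `K'` be any constant extension of `K`, with field of
constants `k'`, of degree dividing `(ℓ - 1) / 2`, and `L` any finite Galois extension of `K'` of degree
a power of `ℓ` with field of constants `k''`, ramified over `T` or where `A_{v'}` does not vanish
modulo `ℓ`, and `Λ_L = R / W`. Then `[k'' : k'] (mult R - mult W) ≤ [L : K'] ρ`, where `mult` is the
multiplicity modulo `ℓ` of the zero `q'' ^ (-b)`, which is at least the order of vanishing of `R`.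
So if `ρ = 0` and `Λ_L` is a polynomial, then its value at `q'' ^ (-b)` is not `0`, and is not
divisible by `ℓ`, for all these `L`. -/
theorem result (k K : Type) [Field k] [Finite k] [Field K] [Algebra k K] (hK : IsCurveField k K)
    (n : ℕ) (F : Set (MvPolynomial (Fin (n + 1)) K)) (hF : ∀ f ∈ F, ∃ d, f.IsHomogeneous d)
    (c : ℤ[X]) (b : ℕ) (Λ : PowerSeries ℤ) (ρ : ℕ) (U V : ℤ[X]) (hΛ : IsL k c F Λ)
    (hUV : IsQuot Λ ((1 - Polynomial.C ((Nat.card k : ℤ) ^ b) * X) ^ ρ * U) V)
    (hU : ∀ x : ℝ, 0 < x → aeval x U ≠ 0)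
    (T : Finset (Place k K)) (P : Place k K → PowerSeries ℤ) (A C : Place k K → ℤ[X])
    (hT : ∀ v ∈ T, IsP c v F (P v) ∧ IsQuot (P v) (A v) (C v) ∧
      ∀ x : ℝ, 0 < x → aeval x (A v) ≠ 0) :
    ∃ D : Set ℕ, PositiveDensity D ∧ ∀ (ℓ : ℕ) [Fact ℓ.Prime], ℓ ∈ D →
      IsSquare ((Nat.card k : ℕ) : ZMod ℓ) ∧
      ∀ (k' K' k'' L : Type) [Field k'] [Finite k'] [Field K'] [Algebra k' K'] [Algebra k k']
        [Algebra k K'] [Algebra K K'] [IsScalarTower k K K'] [IsScalarTower k k' K'] [Field k'']
        [Finite k''] [Field L] [Algebra k'' L] [Algebra k' k''] [Algebra k' L] [Algebra K' L]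
        [IsScalarTower k' K' L] [IsScalarTower k' k'' L],
        IsTower k' K' k'' L ℓ T F c b → ∀ (Λ' : PowerSeries ℤ) (R W : ℤ[X]),
        IsL k'' c (extend L (extend K' F)) Λ' → IsQuot Λ' R W →
          finrank k' k'' * mult ℓ (Nat.card k'') b R ≤
            finrank k' k'' * mult ℓ (Nat.card k'') b W + finrank K' L * ρ ∧
          order (Nat.card k'') b R ≤ mult ℓ (Nat.card k'') b R ∧
          (ρ = 0 → W = 1 →
            (R.map (Int.castRingHom (ZMod ℓ))).eval (((Nat.card k'' : ℕ) : ZMod ℓ) ^ b)⁻¹ ≠ 0 ∧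
            (R.map (Int.castRingHom ℚ)).eval (((Nat.card k'' : ℕ) : ℚ) ^ b)⁻¹ ≠ 0) := by
  classical
  -- nonvanishing modulo `ℓ`
  have hcoef : ∀ (k' L : Type) [Field k'] [Finite k'] [Field L] [Algebra k' L] {m : ℕ}
      {F' : Set (MvPolynomial (Fin (m + 1)) L)} {Λ' : PowerSeries ℤ} {R W : ℤ[X]},
      IsCurveField k' L → IsL k' c F' Λ' → IsQuot Λ' R W → R.coeff 0 = 1 := by
    intro k' L _ _ _ _ m F' Λ' R W hL hΛ' hq
    have h1 := congrArg PowerSeries.constantCoeff hq.2
    rw [map_mul, cc_lfun' hL hΛ', one_mul, ← PowerSeries.coeff_zero_eq_constantCoeff_apply,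
      ← PowerSeries.coeff_zero_eq_constantCoeff_apply, Polynomial.coeff_coe,
      Polynomial.coeff_coe, hq.1] at h1
    exact h1.symm
  have hne : ∀ (ℓ : ℕ) [Fact ℓ.Prime] {R : ℤ[X]}, R.coeff 0 = 1 →
      R.map (Int.castRingHom (ZMod ℓ)) ≠ 0 := fun ℓ _ R h =>
    Pool.Agent.Y701.PE.map_ne_of_coeff h
  have hcardne : ∀ (ℓ : ℕ) [Fact ℓ.Prime] (k' : Type) [Field k'] [Finite k'],
      (ℓ : k') ≠ 0 → ((Nat.card k' : ℕ) : ZMod ℓ) ≠ 0 := fun ℓ _ k' _ _ h =>
    card_ne_zero_mod (k := k') h
  refine ⟨_, dens hK hΛ hUV.1 hUV.2 hU T (P := P) (A := A) (Cc := C)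
    (fun v hv => ⟨(hT v hv).1, (hT v hv).2.1.2, (hT v hv).2.1.1⟩)
    (fun v hv => (hT v hv).2.2), ?_⟩
  rintro ℓ hℓ ⟨-, h2, h3, h4, h5, h7⟩
  refine ⟨h4, ?_⟩
  intro k' K' k'' L _ _ _ _ _ _ _ _ _ _ _ _ _ _ _ _ _ _ htow Λ' R W hΛ' hRW
  have i0 : FF.IsFF k K := ⟨hK.essFiniteType, hK.trdeg_eq_one⟩
  have j1 : Module.Finite k k' := Module.Finite.of_finite
  have i2 : FiniteDimensional K K' := Module.finite_of_finrank_pos (by
    rw [htow.constants]; exact finrank_pos)
  have i1 : FF.IsFF k' K' := ⟨htow.curve.essFiniteType, htow.curve.trdeg_eq_one⟩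
  have i3 : FF.IsFF k K' := isFF_of_finite (K := K)
  have hℓ2 : ℓ ≠ 2 := by
    rintro rfl
    norm_num at h2
  have hℓk' : (ℓ : k') ≠ 0 := by
    rw [← map_natCast (algebraMap k k')]
    exact (_root_.map_ne_zero _).2 h3
  have hℓk'' : (ℓ : k'') ≠ 0 := by
    rw [← map_natCast (algebraMap k' k'')]
    exact (_root_.map_ne_zero _).2 hℓk'
  have hR0 := hne ℓ (hcoef k'' L htow.curveTop hΛ' hRW)
  have hord := order_le_mu (b := b) (hcardne ℓ k'' hℓk'') hR0
  have main : finrank k' k'' * mult ℓ (Nat.card k'') b R ≤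
      finrank k' k'' * mult ℓ (Nat.card k'') b W + finrank K' L * ρ := by
    refine bound_fixed (k := k) (K := K) (k' := k') (K' := K') (k'' := k'') (L := L) hK
      htow.curve htow.curveTop htow.constants hF hΛ hΛ' hUV.1 hUV.2 T
      (fun v hv => ⟨(hT v hv).1, (hT v hv).2.1.2, (hT v hv).2.1.1⟩) hℓ2 h3 h4 h5 h7
      htow.degree htow.galois htow.power ?_ R W hRW.1 hRW.2
    intro v' w e hw he
    rcases htow.ramification v' w e hw he with h | ⟨P', A', C', g1, g2, g3⟩
    · exact Or.inl h
    · right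
      have hA0 : A'.map (Int.castRingHom (ZMod ℓ)) ≠ 0 := by
        apply hne ℓ
        obtain ⟨a, -, ha⟩ := g1
        have h1 := congrArg PowerSeries.constantCoeff g2.2
        rw [map_mul, ha.1, one_mul, ← PowerSeries.coeff_zero_eq_constantCoeff_apply,
          ← PowerSeries.coeff_zero_eq_constantCoeff_apply, Polynomial.coeff_coe,
          Polynomial.coeff_coe, g2.1] at h1
        exact h1.symm
      refine ⟨P', A', C', g1, g2.2, g2.1, fun h0 => ?_⟩
      exact hA0 (Polynomial.rootMultiplicity_eq_zero_iff.1 g3 h0)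
  refine ⟨main, hord, ?_⟩
  intro hρ hW
  have j2 : Module.Finite k' k'' := Module.Finite.of_finite
  have h8 : mult ℓ (Nat.card k'') b W = 0 := by
    rw [hW]
    unfold mult
    rw [Polynomial.map_one]
    exact Polynomial.rootMultiplicity_eq_zero (by simp)
  rw [h8, hρ, mul_zero, mul_zero] at main
  have h9 : mult ℓ (Nat.card k'') b R = 0 :=
    (Nat.mul_eq_zero.1 (Nat.le_zero.1 main)).resolve_left finrank_pos.ne'
  have h10 : order (Nat.card k'') b R = 0 := by
    have : order (Nat.card k'') b R ≤ mult ℓ (Nat.card k'') b R := hord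
    omega
  have hRQ : R.map (Int.castRingHom ℚ) ≠ 0 := by
    rw [Ne, Polynomial.map_eq_zero_iff (RingHom.injective_int _)]
    rintro rfl
    exact hR0 (by simp)
  exact ⟨fun h0 => hR0 (Polynomial.rootMultiplicity_eq_zero_iff.1 h9 h0),
    fun h0 => hRQ (Polynomial.rootMultiplicity_eq_zero_iff.1 h10 h0)⟩

end Pool.Agent.Results.MP_677d84_ag.ProlDensity
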