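import Pool.Agent.Y711.TM1

/-!
# Tensor products of cyclic covers and hyperelliptic curves, twisted by a quadratic character

Let `k` be a finite field of characteristic at least five, let `m n` be a monic squarefree polynomial
in `k[t]`, and fix a class of polynomials with prescribed quadratic symbols at the primes dividing
`n`. For at least half of the monic squarefree `D` of degree `2 g + 1` in the class which are divisible
by `m`, `g` large, the following holds for ALL nonempty finite families of curves over `k(t)` of the
two types
* hyperelliptic curves `y ^ 2 = p(x)` with unipotent Frobenius elements modulo three and good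
  reduction outside `m`,
* cyclic covers `y ^ N = f(x)` of degree `N`, ANY power of three, whose branch points are distinct
  outside `m` and rational (or of degrees which are powers of three),
and for ALL Galois extensions `L` of `k(t)` of degree a power of three in which no ramified place
splits in `L(√D)`: the `L`-function over `L` of the tensor product of the first cohomology groups of
all these curves, twisted by the quadratic character of `L(√D)`, does not vanish at any integer.
-/

set_option autoImplicit false

open Polynomial Pool.Agent.Y711

namespace Pool.Agent.Results.MP_677d84_ag.TensorsOfCyclicCovers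

theorem result (k : Type) [Field k] [Finite k] (h2 : (2 : k) ≠ 0) (h3 : (3 : k) ≠ 0)
    (m n a : k[X]) (hm : m.Monic) (hn : n.Monic) (hs : Squarefree (m * n)) (ha : IsCoprime n a)
    (δ : ℝ) (hδ : δ < 1 / 2) :
    ∃ N : ℕ, ∀ g ≥ N, δ * (twistClass g m n a).ncard ≤
      {D : k[X] | D ∈ twistClass g m n a ∧
        ∀ (u v : ℕ) (γ : Fin u → ℕ) (p : Fin u → k[X][X]) (e b : Fin v → ℕ) (f : Fin v → k[X][X]),
        0 < u + v → (∀ i, IsUnipotent (γ i) (p i) m) → (∀ i, IsBranch (b i) (f i) m) →
        ∀ (L : Type) [Field L] [Algebra k[X] L] [Algebra (RatFunc k) L]
          [IsScalarTower k[X] (RatFunc k) L], IsThreeExtension D L →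
            ∀ j : ℕ, ¬ ZeroAt k j
              (tensorL p (fun i => 3 ^ e i) f D (integralClosure k[X] L))}.ncard :=
  tensor_half h2 h3 hm hn hs ha hδ

end Pool.Agent.Results.MP_677d84_ag.TensorsOfCyclicCovers
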